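import Pool.Agent.Lib.MP_ba0fa5_ag.Iface

/-!
MP_ba0fa5_ag, module GEXIST (helper29): existence of the Kummer extension.
-/

namespace Pool.Agent.Lib.MP_ba0fa5_ag.H29

open scoped Classical
open Polynomial

/-- `X ^ a (1 - X) ^ b` is no `l`-th power in `k(X)` unless `l` divides `a` and `b` -/
theorem dvd_of_pow_eq {k : Type} [Field k] {l a b : ℕ} (w : RatFunc k)
    (hw : w ^ l = RatFunc.X ^ a * (1 - RatFunc.X) ^ b) : l ∣ a ∧ l ∣ b := by
  obtain ⟨P, Q, hQ, rfl⟩ : ∃ P Q : k[X], Q ≠ 0 ∧ w = algebraMap k[X] (RatFunc k) P /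
      algebraMap k[X] (RatFunc k) Q := by
    induction w using RatFunc.induction_on with
    | f P Q hQ => exact ⟨P, Q, hQ, rfl⟩
  have hQ' : algebraMap k[X] (RatFunc k) Q ≠ 0 := RatFunc.algebraMap_ne_zero hQ
  have h1 : P ^ l = (X ^ a * (1 - X) ^ b) * Q ^ l := by
    apply RatFunc.algebraMap_injective k
    rw [div_pow, div_eq_iff (pow_ne_zero _ hQ')] at hw
    simpa [map_mul, map_pow, map_sub, map_one, RatFunc.algebraMap_X] using hw
  have h1X : (1 - X : k[X]) ≠ 0 := by
    intro h
    have h2 := congrArg (Polynomial.eval 0) h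
    simp at h2
  have hX : (X : k[X]) ≠ 0 := X_ne_zero
  have hR : (X ^ a * (1 - X) ^ b : k[X]) * Q ^ l ≠ 0 :=
    mul_ne_zero (mul_ne_zero (pow_ne_zero _ hX) (pow_ne_zero _ h1X)) (pow_ne_zero _ hQ)
  have hP : P ≠ 0 ∨ l = 0 := by
    by_contra hcon
    push Not at hcon
    rw [hcon.1, zero_pow hcon.2] at h1
    exact hR h1.symm
  have key : ∀ c : k, l * rootMultiplicity c P =
      a * rootMultiplicity c (X : k[X]) + b * rootMultiplicity c (1 - X : k[X]) +
        l * rootMultiplicity c Q := by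
    intro c
    have h2 := congrArg (rootMultiplicity c) h1
    rw [rootMultiplicity_mul hR, rootMultiplicity_mul (mul_ne_zero (pow_ne_zero _ hX)
      (pow_ne_zero _ h1X))] at h2
    have hpow : ∀ (F : k[X]) (n : ℕ), F ≠ 0 → rootMultiplicity c (F ^ n) =
        n * rootMultiplicity c F := by
      intro F n hF
      induction n with
      | zero => simp
      | succ n ih =>
        rw [pow_succ, rootMultiplicity_mul (mul_ne_zero (pow_ne_zero _ hF) hF), ih]
        ring
    rw [hpow _ _ hX, hpow _ _ h1X, hpow _ _ hQ] at h2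
    rcases hP with hP | hl
    · rw [hpow _ _ hP] at h2
      exact h2
    · subst hl
      have h3 : rootMultiplicity c (1 : k[X]) = 0 :=
        rootMultiplicity_eq_zero (by simp [IsRoot])
      simpa [h3] using h2
  have hr00 : rootMultiplicity (0 : k) X = 1 := by
    have h2 := rootMultiplicity_X_sub_C_self (x := (0 : k))
    simpa using h2
  have hr01 : rootMultiplicity (0 : k) (1 - X) = 0 :=
    rootMultiplicity_eq_zero (by simp [IsRoot])
  have hr10 : rootMultiplicity (1 : k) X = 0 :=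
    rootMultiplicity_eq_zero (by simp [IsRoot])
  have hr11 : rootMultiplicity (1 : k) (1 - X) = 1 := by
    have h2 := rootMultiplicity_X_sub_C_self (x := (1 : k))
    have h3 : (1 - X : k[X]) = C (-1) * (X - C 1) := by
      simp
    rw [h3, rootMultiplicity_mul (by
      rw [← h3]
      exact h1X), h2, rootMultiplicity_C]
  constructor
  · have h2 := key 0
    rw [hr00, hr01, mul_one, mul_zero, add_zero] at h2
    exact (Nat.dvd_add_left (Dvd.intro _ rfl)).1 (h2 ▸ Dvd.intro _ rfl)
  · have h2 := key 1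
    rw [hr10, hr11, mul_one, mul_zero, zero_add] at h2
    exact (Nat.dvd_add_left (Dvd.intro _ rfl)).1 (h2 ▸ Dvd.intro _ rfl)

/-- GEXIST -/
theorem gexist : GexistStmt := by
  intro k _ m a b hm hab
  set f : RatFunc k := RatFunc.X ^ a * (1 - RatFunc.X) ^ b with hf
  have hm0 : 0 < m := hm.pos
  have hirr : Irreducible (X ^ m - C f : (RatFunc k)[X]) := by
    refine X_pow_sub_C_irreducible_of_odd hm fun p hp hpm w hw => ?_
    obtain ⟨h1, h2⟩ := dvd_of_pow_eq w hw
    have h3 : p ∣ (a.gcd b).gcd m := Nat.dvd_gcd (Nat.dvd_gcd h1 h2) hpm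
    rw [hab] at h3
    exact hp.one_lt.ne' (Nat.dvd_one.1 h3)
  have : Fact (Irreducible (X ^ m - C f : (RatFunc k)[X])) := ⟨hirr⟩
  have hne : (X ^ m - C f : (RatFunc k)[X]) ≠ 0 := hirr.ne_zero
  let pb := AdjoinRoot.powerBasis hne
  have hdim : pb.dim = m := by
    show (AdjoinRoot.powerBasis hne).dim = m
    rw [AdjoinRoot.powerBasis_dim, natDegree_X_pow_sub_C]
  let bs := pb.basis.reindex (finCongr hdim)
  have hbs : ∀ i, bs i = AdjoinRoot.root (X ^ m - C f : (RatFunc k)[X]) ^ (i : ℕ) := by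
    intro i
    show (pb.basis.reindex (finCongr hdim)) i = _
    rw [Module.Basis.reindex_apply, PowerBasis.coe_basis]
    rfl
  refine ⟨AdjoinRoot (X ^ m - C f : (RatFunc k)[X]), inferInstance, inferInstance,
    IsScalarTower.toAlgHom k (RatFunc k) _, AdjoinRoot.root _, ?_, ?_⟩
  · rw [root_X_pow_sub_C_pow]
    rfl
  · intro z
    have hsum : ∀ c : Fin m → RatFunc k, ∑ i, (IsScalarTower.toAlgHom k (RatFunc k)
        (AdjoinRoot (X ^ m - C f : (RatFunc k)[X]))) (c i) *
          AdjoinRoot.root (X ^ m - C f : (RatFunc k)[X]) ^ (i : ℕ) = ∑ i, c i • bs i := by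
      intro c
      refine Finset.sum_congr rfl fun i _ => ?_
      rw [hbs, Algebra.smul_def]
      rfl
    refine ⟨fun i => bs.repr z i, ?_, ?_⟩
    · show z = ∑ i, (IsScalarTower.toAlgHom k (RatFunc k)
        (AdjoinRoot (X ^ m - C f : (RatFunc k)[X]))) (bs.repr z i) *
          AdjoinRoot.root (X ^ m - C f : (RatFunc k)[X]) ^ (i : ℕ)
      rw [hsum, bs.sum_repr]
    · intro c hc
      have hc' : z = ∑ i, (IsScalarTower.toAlgHom k (RatFunc k)
        (AdjoinRoot (X ^ m - C f : (RatFunc k)[X]))) (c i) *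
          AdjoinRoot.root (X ^ m - C f : (RatFunc k)[X]) ^ (i : ℕ) := hc
      rw [hsum] at hc'
      funext i
      rw [hc', bs.repr_sum_self]

end Pool.Agent.Lib.MP_ba0fa5_ag.H29
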