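import Pool.Agent.Lib.MP_ba0fa5_ag.Iface

/-!
MP_ba0fa5_ag, module GFIN (helper29).
-/

namespace Pool.Agent.Lib.MP_ba0fa5_ag.H29

open scoped Classical
open IntermediateField

theorem transcendental_ratFunc_X (k : Type) [Field k] :
    Transcendental k (RatFunc.X : RatFunc k) := by
  intro h
  obtain ⟨p, hp, hp0⟩ := h
  have h1 : Polynomial.aeval (RatFunc.X : RatFunc k) p =
      algebraMap (Polynomial k) (RatFunc k) p := by
    rw [← RatFunc.algebraMap_X, Polynomial.aeval_algebraMap_apply, Polynomial.aeval_X_left_apply]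
  rw [h1] at hp0
  exact RatFunc.algebraMap_ne_zero hp hp0

theorem mem_adjoin_iota (k K : Type) [Field k] [Field K] [Algebra k K] (ι : RatFunc k →ₐ[k] K)
    (c : RatFunc k) : ι c ∈ k⟮ι RatFunc.X⟯ := by
  have hpoly : ∀ P : Polynomial k, ι (algebraMap (Polynomial k) (RatFunc k) P) ∈
      k⟮ι RatFunc.X⟯ := by
    intro P
    have h1 : ι (algebraMap (Polynomial k) (RatFunc k) P) =
        Polynomial.aeval (ι RatFunc.X) P := by
      rw [Polynomial.aeval_algHom_apply, ← RatFunc.algebraMap_X,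
        Polynomial.aeval_algebraMap_apply, Polynomial.aeval_X_left_apply]
    rw [h1]
    exact algebra_adjoin_le_adjoin k _ (Polynomial.aeval_mem_adjoin_singleton k (ι RatFunc.X))
  induction c using RatFunc.induction_on with
  | f P Q hQ =>
    rw [map_div₀]
    exact div_mem (hpoly P) (hpoly Q)

/-- GFIN -/
theorem gfin : GfinStmt := by
  intro k K _ _ _ m a b ι y hK
  constructor
  · intro h
    exact transcendental_ratFunc_X k ((isAlgebraic_algHom_iff ι ι.toRingHom.injective).1 h)
  · refine ⟨⟨Finset.univ.image fun i : Fin m => y ^ (i : ℕ), ?_⟩⟩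
    rw [eq_top_iff]
    intro z _
    obtain ⟨c, hc, -⟩ := hK.basis z
    rw [hc]
    refine Submodule.sum_mem _ fun i _ => ?_
    have h1 : ι (c i) * y ^ (i : ℕ) =
        (⟨ι (c i), mem_adjoin_iota k K ι (c i)⟩ : k⟮ι RatFunc.X⟯) • y ^ (i : ℕ) := rfl
    rw [h1]
    refine Submodule.smul_mem _ _ (Submodule.subset_span ?_)
    simp

end Pool.Agent.Lib.MP_ba0fa5_ag.H29
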