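import Pool.Agent.Lib.MP_ba0fa5_ag.Iface

/-!
MP_ba0fa5_ag, module GCOUNT (helper29).
-/

namespace Pool.Agent.Lib.MP_ba0fa5_ag.H29

open scoped Classical

theorem card_dvd (m a : ℕ) (hm : 0 < m) :
    ((Finset.range m).filter (fun j => m ∣ j * a)).card = a.gcd m := by
  have hg : 0 < a.gcd m := Nat.gcd_pos_of_pos_right _ hm
  obtain ⟨a', ha'⟩ : a.gcd m ∣ a := Nat.gcd_dvd_left _ _
  obtain ⟨m', hm'⟩ : a.gcd m ∣ m := Nat.gcd_dvd_right _ _
  set g := a.gcd m with hgdef
  have hm'0 : 0 < m' := by
    rcases Nat.eq_zero_or_pos m' with h | h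
    · rw [h, mul_zero] at hm'
      omega
    · exact h
  have hcop : Nat.Coprime m' a' := by
    have h1 : Nat.gcd (g * a') (g * m') = g := by rw [← ha', ← hm']
    rw [Nat.gcd_mul_left] at h1
    have h2 : Nat.gcd a' m' = 1 := Nat.eq_of_mul_eq_mul_left hg (by rw [h1, mul_one])
    rw [Nat.Coprime, Nat.gcd_comm]
    exact h2
  have h1 : (Finset.range m).filter (fun j => m ∣ j * a) =
      (Finset.range g).image (fun i => i * m') := by
    ext j
    rw [Finset.mem_filter, Finset.mem_image, Finset.mem_range]
    constructor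
    · rintro ⟨hj, hd⟩
      rw [ha'] at hd
      have h2 : g * m' ∣ g * (j * a') := by
        rw [← hm']
        have h3 : g * (j * a') = j * (g * a') := by ring
        rw [h3]
        exact hd
      have h3 : m' ∣ j * a' := Nat.dvd_of_mul_dvd_mul_left hg h2
      obtain ⟨i, hi⟩ := hcop.dvd_of_dvd_mul_right h3
      refine ⟨i, ?_, by rw [hi, mul_comm]⟩
      rw [Finset.mem_range]
      rw [hi, hm', mul_comm] at hj
      exact Nat.lt_of_mul_lt_mul_right hj
    · rintro ⟨i, hi, rfl⟩
      rw [Finset.mem_range] at hi
      refine ⟨?_, ?_⟩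
      · rw [hm']
        exact Nat.mul_lt_mul_of_pos_right hi hm'0
      · rw [ha', hm']
        exact ⟨i * a', by ring⟩
  rw [h1, Finset.card_image_of_injective, Finset.card_range]
  intro x y hxy
  exact Nat.eq_of_mul_eq_mul_right hm'0 hxy

/-- GCOUNT -/
theorem gcount : GcountStmt := by
  intro m a b hodd hab
  have hm : 0 < m := hodd.pos
  let s : ℕ → ℕ := fun j => if m < (j * a) % m + (j * b) % m then 1 else 0
  let σ : ℕ → ℕ := fun j => (m - j) % m
  have hσ : ∑ j ∈ Finset.range m, s (σ j) = ∑ j ∈ Finset.range m, s j := by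
    refine Finset.sum_nbij' σ σ ?_ ?_ ?_ ?_ ?_
    · intro j _
      exact Finset.mem_range.2 (Nat.mod_lt _ hm)
    · intro j _
      exact Finset.mem_range.2 (Nat.mod_lt _ hm)
    · intro j hj
      have hj' := Finset.mem_range.1 hj
      show (m - (m - j) % m) % m = j
      rcases Nat.eq_zero_or_pos j with h | h
      · subst h
        simp
      · rw [Nat.mod_eq_of_lt (show m - j < m by omega), show m - (m - j) = j by omega,
          Nat.mod_eq_of_lt hj']
    · intro j hj
      have hj' := Finset.mem_range.1 hj
      show (m - (m - j) % m) % m = j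
      rcases Nat.eq_zero_or_pos j with h | h
      · subst h
        simp
      · rw [Nat.mod_eq_of_lt (show m - j < m by omega), show m - (m - j) = j by omega,
          Nat.mod_eq_of_lt hj']
    · intro j _
      rfl
  have hpt : ∀ j ∈ Finset.range m, s j + s (σ j) + (if m ∣ j * a then 1 else 0) +
      (if m ∣ j * b then 1 else 0) + (if m ∣ j * (a + b) then 1 else 0) =
        1 + if j = 0 then 2 else 0 := by
    intro j hj
    have hj' := Finset.mem_range.1 hj
    rcases Nat.eq_zero_or_pos j with h | h
    · subst h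
      simp [s, σ]
    · have hne : j ≠ 0 := by omega
      have hσj : σ j = m - j := Nat.mod_eq_of_lt (by omega)
      rw [hσj, if_neg hne]
      simp only [s]
      set r := (j * a) % m with hr
      set r' := ((m - j) * a) % m with hr'
      set t := (j * b) % m with ht
      set t' := ((m - j) * b) % m with ht'
      have hrm : r < m := Nat.mod_lt _ hm
      have hr'm : r' < m := Nat.mod_lt _ hm
      have htm : t < m := Nat.mod_lt _ hm
      have ht'm : t' < m := Nat.mod_lt _ hm
      have hrr : m ∣ r + r' := by
        rw [Nat.dvd_iff_mod_eq_zero, hr, hr', ← Nat.add_mod, ← add_mul,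
          show j + (m - j) = m by omega]
        simp
      have htt : m ∣ t + t' := by
        rw [Nat.dvd_iff_mod_eq_zero, ht, ht', ← Nat.add_mod, ← add_mul,
          show j + (m - j) = m by omega]
        simp
      have hdiv : ∀ x : ℕ, x < 2 * m → (m ∣ x ↔ x = 0 ∨ x = m) := by
        intro x hx
        constructor
        · rintro ⟨c, hc⟩
          have hc2 : c < 2 := by
            by_contra hcon
            have : m * 2 ≤ m * c := Nat.mul_le_mul_left m (by omega)
            omega
          interval_cases c
          · left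
            omega
          · right
            omega
        · rintro (rfl | rfl)
          · exact dvd_zero _
          · exact dvd_refl _
      have hA : m ∣ j * a ↔ r = 0 := by rw [Nat.dvd_iff_mod_eq_zero]
      have hB : m ∣ j * b ↔ t = 0 := by rw [Nat.dvd_iff_mod_eq_zero]
      have hC : m ∣ j * (a + b) ↔ r + t = 0 ∨ r + t = m := by
        rw [← hdiv _ (by omega), Nat.dvd_iff_mod_eq_zero, Nat.dvd_iff_mod_eq_zero, mul_add,
          Nat.add_mod]
      have hno : ¬ (r = 0 ∧ t = 0) := by
        rintro ⟨h1, h2⟩
        have h3 : m ∣ j * a := hA.2 h1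
        have h4 : m ∣ j * b := hB.2 h2
        have h5 : m ∣ j * (a.gcd b) := by
          rw [← Nat.gcd_mul_left]
          exact Nat.dvd_gcd h3 h4
        have h6 : m ∣ j := (Nat.Coprime.symm hab).dvd_of_dvd_mul_right h5
        exact absurd (Nat.le_of_dvd h h6) (by omega)
      rw [hdiv _ (by omega)] at hrr htt
      simp only [hA, hB, hC]
      split_ifs <;> omega
  have hsum := Finset.sum_congr rfl hpt
  simp only [Finset.sum_add_distrib] at hsum
  rw [hσ] at hsum
  have h0 : ∑ j ∈ Finset.range m, (if j = 0 then 2 else 0) = 2 := by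
    rw [Finset.sum_ite_eq' (Finset.range m) 0 (fun _ => 2), if_pos (Finset.mem_range.2 hm)]
  have h1 : ∑ j ∈ Finset.range m, s j =
      ((Finset.range m).filter (fun j => m < (j * a) % m + (j * b) % m)).card := by
    rw [Finset.card_filter]
  have h2 : ∀ c : ℕ, ∑ j ∈ Finset.range m, (if m ∣ j * c then 1 else 0) = c.gcd m := by
    intro c
    rw [← card_dvd m c hm, Finset.card_filter]
  rw [h0, h1, h2, h2, h2] at hsum
  simp only [Finset.sum_const, Finset.card_range, smul_eq_mul, mul_one] at hsum
  omega

end Pool.Agent.Lib.MP_ba0fa5_ag.H29
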